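import Pool.Agent.Helper37.KDB.Extra
import Pool.Agent.Helper37.KDB.St.P2
import Pool.Agent.Helper37.KDB.St.P4
import Pool.Agent.Helper37.KDB.St.P5

/-! Project KDB, piece P6: relative noise of the kicks. -/

set_option autoImplicit false

namespace KDB.I.P6

open MeasureTheory KDB
open scoped ENNReal

variable (p : Par)

lemma one_le_ell (hp : p.Ok) : (1 : ℝ) ≤ p.ell := by
  have h : 1 ≤ p.L ^ p.q := Nat.one_le_pow _ _ (by have := hp.hL; omega)
  unfold Par.ell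
  exact_mod_cast h

lemma rho_pos (hp : p.Ok) (k : ℕ) : 0 < p.rho k :=
  pow_pos (lt_of_lt_of_le one_pos (one_le_ell p hp)) k

lemma rho_mono (hp : p.Ok) {i j : ℕ} (h : i ≤ j) : p.rho i ≤ p.rho j :=
  pow_le_pow_right₀ (one_le_ell p hp) h

lemma kd_nonneg (hp : p.Ok) (w : V p.d) : 0 ≤ p.kd w := by
  unfold Par.kd
  split_ifs
  · exact mul_nonneg hp.hlam.le (Real.rpow_nonneg (Real.sqrt_nonneg _) _)
  · exact le_refl _

lemma geom {r : ℝ} (h0 : 0 ≤ r) (h : 2 * r ≤ 1) (m N : ℕ) (hN : m ≤ N) :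
    ∑ i ∈ Finset.Icc m N, r ^ i ≤ 2 * r ^ m - r ^ N := by
  induction N, hN using Nat.le_induction with
  | base => rw [Finset.Icc_self, Finset.sum_singleton]; linarith
  | succ N hN ih =>
    rw [← Finset.insert_Icc_right_eq_Icc_add_one (by omega), Finset.sum_insert (by simp)]
    have h1 : 0 ≤ r ^ N := pow_nonneg h0 N
    have h2 : r ^ (N + 1) = r ^ N * r := pow_succ r N
    nlinarith

/-- the term of level `i` -/
noncomputable def T (i : ℕ) (w : V p.d) : ℝ :=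
  (p.rho i)⁻¹ * {w : V p.d | ‖w‖ < p.rho i}.indicator (fun w => ‖w‖ * p.kd w) w

lemma meas_set (r : ℝ) : MeasurableSet {w : V p.d | ‖w‖ < r} :=
  measurableSet_lt measurable_norm measurable_const

lemma T_nonneg (hp : p.Ok) (i : ℕ) (w : V p.d) : 0 ≤ T p i w :=
  mul_nonneg (inv_nonneg.2 (rho_pos p hp i).le)
    (Set.indicator_nonneg (fun w _ => mul_nonneg (norm_nonneg w) (kd_nonneg p hp w)) w)

lemma T_int (hp : p.Ok) (i : ℕ) : Integrable (T p i) := by
  have hkd := kd_int p hp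
  refine Integrable.mono' hkd ?_ (Filter.Eventually.of_forall fun w => ?_)
  · refine AEStronglyMeasurable.const_mul ?_ _
    exact (measurable_norm.aestronglyMeasurable.mul hkd.aestronglyMeasurable).indicator
      (meas_set p _)
  · rw [Real.norm_of_nonneg (T_nonneg p hp i w)]
    unfold T
    have hr := rho_pos p hp i
    by_cases hw : ‖w‖ < p.rho i
    · rw [Set.indicator_of_mem (show w ∈ {w : V p.d | ‖w‖ < p.rho i} from hw), ← mul_assoc]
      have h1 : (p.rho i)⁻¹ * ‖w‖ ≤ 1 := by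
        rw [inv_mul_le_iff₀ hr, mul_one]; exact hw.le
      exact mul_le_of_le_one_left (kd_nonneg p hp w) h1
    · rw [Set.indicator_of_notMem (show w ∉ {w : V p.d | ‖w‖ < p.rho i} from hw), mul_zero]
      exact kd_nonneg p hp w

lemma T_le (hp : p.Ok) (hq : 2 ≤ p.q) (i : ℕ) :
    ∫ w, T p i w ≤ p.lam * (2 ^ (p.d + 1) * p.d) * ((p.L : ℝ)⁻¹) ^ i := by
  have hr := rho_pos p hp i
  unfold T
  rw [integral_const_mul, integral_indicator (meas_set p _)]
  have h1 := kick_mom p hp hq (p.rho i) hr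
  have h2 : p.rho i ^ (1 - 2 * p.s) = p.rho i * ((p.L : ℝ) ^ i)⁻¹ := by
    rw [sub_eq_add_neg, Real.rpow_add hr, Real.rpow_one, rho_rpow p hp]
  rw [h2] at h1
  rw [inv_mul_le_iff₀ hr]
  refine h1.trans (le_of_eq ?_)
  rw [inv_pow]
  ring

lemma point (hp : p.Ok) (m : ℕ) (hm : m < p.n) (w : V p.d) :
    p.kd w * (‖w‖ / p.rho (max m (p.kl w))) ≤ ∑ i ∈ Finset.Icc m p.n, T p i w := by
  by_cases h : p.eps ≤ ‖w‖ ∧ ‖w‖ < p.rho p.n
  · obtain ⟨h1, h2, -⟩ := kl_spec p hp w h.2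
    have hmem : max m (p.kl w) ∈ Finset.Icc m p.n :=
      Finset.mem_Icc.2 ⟨le_max_left _ _, max_le hm.le h1⟩
    refine le_trans (le_of_eq ?_) (Finset.single_le_sum (fun i _ => T_nonneg p hp i w) hmem)
    have h3 : ‖w‖ < p.rho (max m (p.kl w)) :=
      lt_of_lt_of_le h2 (rho_mono p hp (le_max_right _ _))
    generalize max m (p.kl w) = i at h3
    unfold T
    rw [Set.indicator_of_mem (show w ∈ {w : V p.d | ‖w‖ < p.rho i} from h3)]
    rw [div_eq_mul_inv]
    ring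
  · have h0 : p.kd w = 0 := by
      unfold Par.kd
      rw [if_neg h]
    rw [h0, zero_mul]
    exact Finset.sum_nonneg fun i _ => T_nonneg p hp i w

/-- relative noise of the kicks -/
theorem kick_noise (hp : p.Ok) (hq : 2 ≤ p.q) (m : ℕ) (hm : m < p.n) :
    Integrable (fun w => p.kd w * (‖w‖ / p.rho (max m (p.kl w)))) ∧
    ∫ w, p.kd w * (‖w‖ / p.rho (max m (p.kl w))) ≤
      p.lam * (2 ^ (p.d + 2) * p.d) * ((p.L : ℝ) ^ m)⁻¹ := by
  have hkd := kd_int p hp
  have hsum : Integrable (fun w => ∑ i ∈ Finset.Icc m p.n, T p i w) :=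
    integrable_finsetSum _ fun i _ => T_int p hp i
  have hnn : ∀ w, 0 ≤ p.kd w * (‖w‖ / p.rho (max m (p.kl w))) := fun w =>
    mul_nonneg (kd_nonneg p hp w) (div_nonneg (norm_nonneg w) (rho_pos p hp _).le)
  have hmeas : AEStronglyMeasurable (fun w => p.kd w * (‖w‖ / p.rho (max m (p.kl w)))) := by
    refine hkd.aestronglyMeasurable.mul ?_
    refine (measurable_norm.div ?_).aestronglyMeasurable
    have h1 : Measurable (fun k : ℕ => p.rho (max m k)) := measurable_from_nat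
    exact h1.comp (kl_meas p)
  have hint : Integrable (fun w => p.kd w * (‖w‖ / p.rho (max m (p.kl w)))) := by
    refine Integrable.mono' hsum hmeas (Filter.Eventually.of_forall fun w => ?_)
    rw [Real.norm_of_nonneg (hnn w)]
    exact point p hp m hm w
  refine ⟨hint, ?_⟩
  have hL : (1000 : ℝ) ≤ p.L := by exact_mod_cast hp.hL
  have hL0 : (0 : ℝ) < p.L := by linarith
  have hr0 : 0 ≤ (p.L : ℝ)⁻¹ := inv_nonneg.2 hL0.le
  have hr1 : 2 * (p.L : ℝ)⁻¹ ≤ 1 := by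
    rw [← div_eq_mul_inv, div_le_one hL0]; linarith
  have hC : 0 ≤ p.lam * (2 ^ (p.d + 1) * p.d) :=
    mul_nonneg hp.hlam.le (by positivity)
  calc ∫ w, p.kd w * (‖w‖ / p.rho (max m (p.kl w)))
      ≤ ∫ w, ∑ i ∈ Finset.Icc m p.n, T p i w := integral_mono hint hsum (point p hp m hm)
    _ = ∑ i ∈ Finset.Icc m p.n, ∫ w, T p i w := integral_finsetSum _ fun i _ => T_int p hp i
    _ ≤ ∑ i ∈ Finset.Icc m p.n, p.lam * (2 ^ (p.d + 1) * p.d) * ((p.L : ℝ)⁻¹) ^ i :=
        Finset.sum_le_sum fun i _ => T_le p hp hq i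
    _ = p.lam * (2 ^ (p.d + 1) * p.d) * ∑ i ∈ Finset.Icc m p.n, ((p.L : ℝ)⁻¹) ^ i := by
        rw [Finset.mul_sum]
    _ ≤ p.lam * (2 ^ (p.d + 1) * p.d) * (2 * ((p.L : ℝ)⁻¹) ^ m) := by
        refine mul_le_mul_of_nonneg_left ?_ hC
        have h1 := geom hr0 hr1 m p.n hm.le
        have h2 : 0 ≤ ((p.L : ℝ)⁻¹) ^ p.n := pow_nonneg hr0 _
        linarith
    _ = p.lam * (2 ^ (p.d + 2) * p.d) * ((p.L : ℝ) ^ m)⁻¹ := by
        rw [inv_pow, pow_succ (2 : ℝ) (p.d + 1)]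
        ring

end KDB.I.P6
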